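import Mathlib
import Pool.Agent.R488.TM

/-!
# The best constants for the ratios of consecutive terms of the twisted Fibonacci sequence

`h 0 = 0`, `h 1 = 1`, `h n = t n * h (n - 1) + h (n - 2)` with `t` the Thue-Morse sequence
(`Pool.Agent.R488.TM`).  With `X m = |h (4 m)| = |h (4 m + 3)|` and `Y m = |h (4 m + 1)|` put
`r m = X m / Y m`.  Then `r (m + 1)` is a Moebius function of `r m` which is increasing or
decreasing according to the sign `e m = t (m + 1) t m`, and `e (2 u) = -1`, `e (2 u + 1) = - e u`.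
Comparing the blocks of length `2 ^ j` we find the largest and the smallest value of `r` on every
residue class modulo `2 ^ j`; all of them are attained.
-/

set_option autoImplicit false

namespace Pool.Agent.Results.MP_e68cb8_nt.BestConstants

open Pool.Agent.R488.TM

/-! ### Definitions used in the statement -/

/-- `ρ n = |h n| / |h (n - 1)|`. -/
def ρ (n : ℕ) : ℚ := |(h n : ℚ)| / |(h (n - 1) : ℚ)|

/-- The best constant: the infimum of `ρ (2 ^ k n + i + 1)` over all `n` with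
`2 ^ k n + i ≥ 4`. -/
noncomputable def best (k i : ℕ) : ℝ :=
  sInf {x : ℝ | ∃ n : ℕ, 4 ≤ 2 ^ k * n + i ∧ x = (ρ (2 ^ k * n + i + 1) : ℝ)}

/-- The lower limit of `ρ (2 ^ k n + i + 1)` for `n → ∞`. -/
noncomputable def low (k i : ℕ) : ℝ :=
  Filter.liminf (fun n : ℕ => (ρ (2 ^ k * n + i + 1) : ℝ)) Filter.atTop

/-- The statement of the second question, for a family `C` of real constants. -/
def Q2 (C : ℕ → ℕ → ℝ) : Prop :=
  (∀ k i : ℕ, 1 ≤ k → i < 2 ^ k → (∃ q : ℚ, C k i = (q : ℝ)) ∧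
    ∀ n : ℕ, 4 ≤ 2 ^ k * n + i →
      C k i * |(h (2 ^ k * n + i) : ℝ)| ≤ |(h (2 ^ k * n + i + 1) : ℝ)|) ∧
  (∀ k : ℕ, 1 ≤ k → C (2 * k) 0 = C (2 * k + 1) 0) ∧
  C 1 0 = 2 / 7 ∧ C 2 0 = 2 / 3 ∧ C 3 0 = 2 / 3 ∧ C 4 0 = 64 / 83 ∧ C 5 0 = 64 / 83 ∧
  C 6 0 = 52071130 / 67519091 ∧ C 7 0 = 52071130 / 67519091

/-! ### The signs `e` -/

/-- `e m = t (m + 1) t m`. -/
def e (n : ℕ) : ℤ := t (n + 1) * t n

lemma e_even (u : ℕ) : e (2 * u) = -1 := by
  unfold e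
  rw [t_odd, t_even]
  linear_combination -t_sq u

lemma e_odd (u : ℕ) : e (2 * u + 1) = -e u := by
  unfold e
  rw [show 2 * u + 1 + 1 = 2 * (u + 1) by ring, t_even, t_odd]
  ring

lemma e_cases (n : ℕ) : e n = 1 ∨ e n = -1 := tt_cases _ _

lemma e_sq (n : ℕ) : e n * e n = 1 := by
  rcases e_cases n with h | h <;> rw [h] <;> norm_num

lemma e_pos_odd {n : ℕ} (hn : e n = 1) : ∃ u, n = 2 * u + 1 := by
  rcases Nat.even_or_odd' n with ⟨u, rfl | rfl⟩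
  · rw [e_even] at hn; omega
  · exact ⟨u, rfl⟩

/-- The sign of a block of length `2 ^ j`. -/
def s (j : ℕ) : ℤ := t (2 ^ j - 1)

lemma s_zero : s 0 = 1 := by
  unfold s
  exact t_zero

lemma s_succ (j : ℕ) : s (j + 1) = -s j := by
  unfold s
  have h1 : 1 ≤ 2 ^ j := Nat.one_le_two_pow
  rw [show 2 ^ (j + 1) - 1 = 2 * (2 ^ j - 1) + 1 by rw [pow_succ]; omega, t_odd]

lemma s_cases (j : ℕ) : s j = 1 ∨ s j = -1 := t_cases _

lemma s_sq (j : ℕ) : s j * s j = 1 := t_sq _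

lemma s_parity (k : ℕ) : s (2 * k) = 1 ∧ s (2 * k + 1) = -1 := by
  induction k with
  | zero => exact ⟨s_zero, by rw [Nat.mul_zero, s_succ, s_zero]⟩
  | succ k ih =>
    have h1 : s (2 * (k + 1)) = 1 := by
      rw [show 2 * (k + 1) = 2 * k + 1 + 1 by ring, s_succ, ih.2, neg_neg]
    exact ⟨h1, by rw [s_succ, h1]⟩

lemma t_block {j a : ℕ} (n : ℕ) (ha : a < 2 ^ j) : t (2 ^ j * n + a) = t n * t a :=
  t_add j n a ha

lemma e_inner {j a : ℕ} (n : ℕ) (ha : a + 1 < 2 ^ j) : e (2 ^ j * n + a) = e a := by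
  unfold e
  rw [Nat.add_assoc, t_block n ha, t_block n (by omega)]
  linear_combination t (a + 1) * t a * t_sq n

lemma e_outer (j n : ℕ) : e (2 ^ j * n + (2 ^ j - 1)) = e n * s j := by
  unfold e s
  have h1 : 1 ≤ 2 ^ j := Nat.one_le_two_pow
  have h2 : 2 ^ j * n + (2 ^ j - 1) + 1 = 2 ^ j * (n + 1) + 0 := by
    rw [Nat.mul_add]; omega
  rw [h2, t_block (n + 1) (by omega), t_block n (by omega), t_zero]
  ring

/-! ### The ratios `r` -/

/-- `r m = X m / Y m`. -/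
def r (n : ℕ) : ℚ := (X n : ℚ) / (Y n : ℚ)

lemma Y_pos (n : ℕ) : (0 : ℚ) < Y n := by
  have := (XY_pos n).2.1
  have h : 0 < Y n := by omega
  exact_mod_cast h

lemma X_nonneg (n : ℕ) : (0 : ℚ) ≤ X n := by
  have := (XY_pos n).1
  exact_mod_cast this

lemma X_pos {n : ℕ} (hn : 1 ≤ n) : (0 : ℚ) < X n := by
  obtain ⟨h1, h2, h3, h4⟩ := XY_pos n
  have h5 := h4 hn
  have h : 0 < X n := by omega
  exact_mod_cast h

lemma r_nonneg (n : ℕ) : 0 ≤ r n := div_nonneg (X_nonneg n) (Y_pos n).le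

lemma r_pos {n : ℕ} (hn : 1 ≤ n) : 0 < r n := div_pos (X_pos hn) (Y_pos n)

lemma r_zero : r 0 = 0 := by
  unfold r
  rw [X_zero]; norm_num

lemma r_succ (n : ℕ) : r (n + 1) = ((1 + (e n : ℚ)) * r n + 1) / (r n + 1) := by
  have hY := Y_pos n
  have hX := X_nonneg n
  unfold r
  rw [X_succ, Y_succ]
  unfold e
  push_cast
  field_simp

lemma r_le_one {m : ℕ} (hm : e m = -1) : r (m + 1) ≤ 1 := by
  have h := r_nonneg m
  rw [r_succ, hm]
  push_cast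
  rw [div_le_one (by linarith)]
  linarith

lemma one_le_r {m : ℕ} (hm : e m = 1) : 1 ≤ r (m + 1) := by
  have h := r_nonneg m
  rw [r_succ, hm]
  push_cast
  rw [one_le_div (by linarith)]
  linarith

lemma step {m m' : ℕ} (hm : e m = e m') :
    ∃ c : ℚ, 0 < c ∧ r (m' + 1) - r (m + 1) = (e m : ℚ) * c * (r m' - r m) := by
  have h1 := r_nonneg m
  have h2 := r_nonneg m'
  refine ⟨1 / ((r m + 1) * (r m' + 1)), by positivity, ?_⟩
  rw [r_succ, r_succ, ← hm]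
  field_simp
  ring

/-- Comparison inside a block. -/
lemma mono {j : ℕ} {n n' : ℕ} (hn : r (2 ^ j * n) ≤ r (2 ^ j * n')) :
    ∀ a : ℕ, a < 2 ^ j → 0 ≤ (t a : ℚ) * (r (2 ^ j * n' + a) - r (2 ^ j * n + a)) := by
  intro a
  induction a with
  | zero =>
    intro _
    rw [t_zero]
    push_cast
    simp only [Nat.add_zero]
    linarith
  | succ a ih =>
    intro ha
    have h0 := ih (by omega)
    have he : e (2 ^ j * n + a) = e (2 ^ j * n' + a) := by rw [e_inner n ha, e_inner n' ha]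
    obtain ⟨c, hc, h1⟩ := step he
    rw [← Nat.add_assoc, ← Nat.add_assoc, h1, e_inner n ha]
    have h2 : (t (a + 1) : ℚ) * ((e a : ℚ) * c * (r (2 ^ j * n' + a) - r (2 ^ j * n + a))) =
        c * ((t a : ℚ) * (r (2 ^ j * n' + a) - r (2 ^ j * n + a))) := by
      have h3 : (t (a + 1) : ℚ) * (t (a + 1) : ℚ) = 1 := by exact_mod_cast t_sq (a + 1)
      unfold e
      push_cast
      linear_combination ((t a : ℚ) * c * (r (2 ^ j * n' + a) - r (2 ^ j * n + a))) * h3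
    rw [h2]
    exact mul_nonneg hc.le h0

/-- Comparison over a whole block. -/
lemma block {j : ℕ} {n n' : ℕ} (he : e n = e n') (hn : r (2 ^ j * n) ≤ r (2 ^ j * n')) :
    0 ≤ (e n : ℚ) * (r (2 ^ j * (n' + 1)) - r (2 ^ j * (n + 1))) := by
  have h1 : 1 ≤ 2 ^ j := Nat.one_le_two_pow
  have h0 := mono hn (2 ^ j - 1) (by omega)
  have he' : e (2 ^ j * n + (2 ^ j - 1)) = e (2 ^ j * n' + (2 ^ j - 1)) := by
    rw [e_outer, e_outer, he]
  obtain ⟨c, hc, h2⟩ := step he'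
  have e1 : ∀ n : ℕ, 2 ^ j * (n + 1) = 2 ^ j * n + (2 ^ j - 1) + 1 := by
    intro n; rw [Nat.mul_add]; omega
  rw [e1 n, e1 n', h2, e_outer]
  have h3 : (e n : ℚ) * (((e n * s j : ℤ) : ℚ) * c *
      (r (2 ^ j * n' + (2 ^ j - 1)) - r (2 ^ j * n + (2 ^ j - 1)))) =
      c * ((t (2 ^ j - 1) : ℚ) *
        (r (2 ^ j * n' + (2 ^ j - 1)) - r (2 ^ j * n + (2 ^ j - 1)))) := by
    have h4 : (e n : ℚ) * (e n : ℚ) = 1 := by exact_mod_cast e_sq n
    have h5 : (s j : ℚ) = (t (2 ^ j - 1) : ℚ) := rfl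
    push_cast
    rw [h5]
    linear_combination (c * ((t (2 ^ j - 1) : ℚ) *
        (r (2 ^ j * n' + (2 ^ j - 1)) - r (2 ^ j * n + (2 ^ j - 1))))) * h4
  rw [h3]
  exact mul_nonneg hc.le h0

lemma block_pos {j : ℕ} {n n' : ℕ} (h1 : e n = 1) (h2 : e n' = 1)
    (hn : r (2 ^ j * n) ≤ r (2 ^ j * n')) : r (2 ^ j * (n + 1)) ≤ r (2 ^ j * (n' + 1)) := by
  have h := block (h1.trans h2.symm) hn
  rw [h1] at h
  push_cast at h
  linarith

lemma block_neg {j : ℕ} {n n' : ℕ} (h1 : e n = -1) (h2 : e n' = -1)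
    (hn : r (2 ^ j * n) ≤ r (2 ^ j * n')) : r (2 ^ j * (n' + 1)) ≤ r (2 ^ j * (n + 1)) := by
  have h := block (h1.trans h2.symm) hn
  rw [h1] at h
  push_cast at h
  linarith

lemma block_diff {j : ℕ} {n n' : ℕ} (h1 : e n * s j = -1) (h2 : e n' * s j = 1) :
    r (2 ^ j * (n + 1)) ≤ r (2 ^ j * (n' + 1)) := by
  have h0 : 1 ≤ 2 ^ j := Nat.one_le_two_pow
  have e1 : ∀ n : ℕ, 2 ^ j * (n + 1) = 2 ^ j * n + (2 ^ j - 1) + 1 := by
    intro n; rw [Nat.mul_add]; omega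
  rw [e1 n, e1 n']
  exact (r_le_one (by rw [e_outer, h1])).trans (one_le_r (by rw [e_outer, h2]))

lemma r_zero_le (j n : ℕ) : r (2 ^ j * 0) ≤ r (2 ^ j * n) := by
  rw [Nat.mul_zero, r_zero]; exact r_nonneg _

lemma e_0 : e 0 = -1 := e_even 0
lemma e_1 : e 1 = 1 := by have := e_odd 0; rw [e_0] at this; simpa using this
lemma e_2 : e 2 = -1 := e_even 1
lemma e_4 : e 4 = -1 := e_even 2
lemma e_5 : e 5 = 1 := by
  have := e_odd 2
  rw [e_2, neg_neg] at this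
  exact this

/-- The largest value for `s j = -1`. -/
lemma max_odd {j : ℕ} (hj : s j = -1) (n : ℕ) : r (2 ^ j * n) ≤ r (2 ^ j * 1) := by
  rcases Nat.eq_zero_or_pos n with rfl | hn
  · exact r_zero_le j 1
  · obtain ⟨m, rfl⟩ : ∃ m, n = m + 1 := ⟨n - 1, by omega⟩
    rcases e_cases m with h | h
    · exact block_diff (n := m) (n' := 0) (by rw [h, hj]; norm_num) (by rw [e_0, hj]; norm_num)
    · exact block_neg (n := 0) (n' := m) e_0 h (r_zero_le j m)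

lemma odd_le_one (j u : ℕ) : r (2 ^ j * (2 * u + 1)) ≤ r (2 ^ j * 1) :=
  block_neg (n := 0) (n' := 2 * u) e_0 (e_even u) (r_zero_le j _)

/-- The largest value for `s j = 1`. -/
lemma max_even {j : ℕ} (hj : s j = 1) (n : ℕ) : r (2 ^ j * n) ≤ r (2 ^ j * 2) := by
  rcases Nat.eq_zero_or_pos n with rfl | hn
  · exact r_zero_le j 2
  · obtain ⟨m, rfl⟩ : ∃ m, n = m + 1 := ⟨n - 1, by omega⟩
    rcases e_cases m with h | h
    · obtain ⟨u, rfl⟩ := e_pos_odd h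
      exact block_pos (n := 2 * u + 1) (n' := 1) h e_1 (odd_le_one j u)
    · exact block_diff (n := m) (n' := 1) (by rw [h, hj]; norm_num) (by rw [e_1, hj]; norm_num)

/-- The smallest value for `s j = 1`. -/
lemma min_even {j : ℕ} (hj : s j = 1) (n : ℕ) (hn : 1 ≤ n) : r (2 ^ j * 3) ≤ r (2 ^ j * n) := by
  obtain ⟨m, rfl⟩ : ∃ m, n = m + 1 := ⟨n - 1, by omega⟩
  rcases e_cases m with h | h
  · exact block_diff (n := 2) (n' := m) (by rw [e_2, hj]; norm_num) (by rw [h, hj]; norm_num)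
  · exact block_neg (n := m) (n' := 2) h e_2 (max_even hj m)

lemma five_le_odd {j : ℕ} (hj : s j = -1) (u : ℕ) :
    r (2 ^ j * 5) ≤ r (2 ^ j * (2 * u + 1)) := by
  have hj' : s (j + 1) = 1 := by rw [s_succ, hj, neg_neg]
  have h1 := max_even hj' u
  rw [show 2 ^ (j + 1) * u = 2 ^ j * (2 * u) by rw [pow_succ]; ring,
    show 2 ^ (j + 1) * 2 = 2 ^ j * 4 by rw [pow_succ]; ring] at h1
  exact block_neg (n := 2 * u) (n' := 4) (e_even u) e_4 h1

/-- The smallest value for `s j = -1`. -/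
lemma min_odd {j : ℕ} (hj : s j = -1) (n : ℕ) (hn : 1 ≤ n) :
    r (2 ^ j * 6) ≤ r (2 ^ j * n) := by
  obtain ⟨m, rfl⟩ : ∃ m, n = m + 1 := ⟨n - 1, by omega⟩
  rcases e_cases m with h | h
  · obtain ⟨u, rfl⟩ := e_pos_odd h
    exact block_pos (n := 5) (n' := 2 * u + 1) e_5 h (five_le_odd hj u)
  · exact block_diff (n := 5) (n' := m) (by rw [e_5, hj]; norm_num) (by rw [h, hj]; norm_num)

lemma max_all (j : ℕ) : ∃ n1, 1 ≤ n1 ∧ ∀ n, r (2 ^ j * n) ≤ r (2 ^ j * n1) := by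
  rcases s_cases j with h | h
  · exact ⟨2, by norm_num, max_even h⟩
  · exact ⟨1, by norm_num, max_odd h⟩

lemma min_all (j : ℕ) : ∃ n1, 1 ≤ n1 ∧ ∀ n, 1 ≤ n → r (2 ^ j * n1) ≤ r (2 ^ j * n) := by
  rcases s_cases j with h | h
  · exact ⟨3, by norm_num, min_even h⟩
  · exact ⟨6, by norm_num, min_odd h⟩

lemma two_pow_mul_pos {j n : ℕ} (hn : 1 ≤ n) : 1 ≤ 2 ^ j * n :=
  Nat.one_le_iff_ne_zero.2 (Nat.mul_ne_zero (by positivity) (by omega))

/-- The largest value of `r` on a residue class is attained. -/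
lemma class_max {j a : ℕ} (ha : a < 2 ^ j) :
    ∃ n1, 1 ≤ 2 ^ j * n1 + a ∧ ∀ n, r (2 ^ j * n + a) ≤ r (2 ^ j * n1 + a) := by
  obtain ⟨n1, hn1, h1⟩ := max_all j
  rcases t_cases a with h | h
  · refine ⟨n1, by have := two_pow_mul_pos (j := j) hn1; omega, fun n => ?_⟩
    have h2 := mono (h1 n) a ha
    rw [h] at h2
    push_cast at h2
    linarith
  · have ha0 : a ≠ 0 := by
      rintro rfl
      rw [t_zero] at h
      norm_num at h
    refine ⟨0, by omega, fun n => ?_⟩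
    have h2 := mono (r_zero_le j n) a ha
    rw [h] at h2
    push_cast at h2
    linarith

/-- The smallest value of `r` on a residue class is attained. -/
lemma class_min {j a : ℕ} (ha : a < 2 ^ j) :
    ∃ n1, 1 ≤ 2 ^ j * n1 + a ∧
      ∀ n, 1 ≤ 2 ^ j * n + a → r (2 ^ j * n1 + a) ≤ r (2 ^ j * n + a) := by
  rcases Nat.eq_zero_or_pos a with rfl | ha0
  · obtain ⟨n1, hn1, h1⟩ := min_all j
    refine ⟨n1, by have := two_pow_mul_pos (j := j) hn1; omega, fun n hn => ?_⟩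
    rw [Nat.add_zero, Nat.add_zero]
    refine h1 n ?_
    rcases Nat.eq_zero_or_pos n with rfl | h
    · simp at hn
    · exact h
  · rcases t_cases a with h | h
    · refine ⟨0, by omega, fun n _ => ?_⟩
      have h2 := mono (r_zero_le j n) a ha
      rw [h] at h2
      push_cast at h2
      linarith
    · obtain ⟨n1, hn1, h1⟩ := max_all j
      refine ⟨n1, by omega, fun n _ => ?_⟩
      have h2 := mono (h1 n) a ha
      rw [h] at h2
      push_cast at h2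
      linarith

/-- The last element of a block, before a negative sign. -/
lemma last_max (j : ℕ) : ∃ n1, 1 ≤ 2 ^ j * n1 + (2 ^ j - 1) ∧
    e (2 ^ j * n1 + (2 ^ j - 1)) = -1 ∧ ∀ n, e (2 ^ j * n + (2 ^ j - 1)) = -1 →
      r (2 ^ j * n + (2 ^ j - 1)) ≤ r (2 ^ j * n1 + (2 ^ j - 1)) := by
  have h0 : 1 ≤ 2 ^ j := Nat.one_le_two_pow
  have hlt : 2 ^ j - 1 < 2 ^ j := by omega
  rcases s_cases j with h | h
  · refine ⟨2, by omega, by rw [e_outer, e_2, h]; norm_num, fun n _ => ?_⟩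
    have h2 := mono (max_even h n) (2 ^ j - 1) hlt
    have h3 : t (2 ^ j - 1) = 1 := h
    rw [h3] at h2
    push_cast at h2
    linarith
  · refine ⟨5, by omega, by rw [e_outer, e_5, h]; norm_num, fun n hn => ?_⟩
    rw [e_outer, h] at hn
    obtain ⟨u, rfl⟩ := e_pos_odd (n := n) (by omega)
    have h2 := mono (five_le_odd h u) (2 ^ j - 1) hlt
    have h3 : t (2 ^ j - 1) = -1 := h
    rw [h3] at h2
    push_cast at h2
    linarith

lemma t0 : t 0 = 1 := t_zero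
lemma t1 : t 1 = -1 := by rw [show (1:ℕ) = 2 * 0 + 1 from rfl, t_odd, t0]
lemma t2 : t 2 = -1 := by rw [show (2:ℕ) = 2 * 1 from rfl, t_even, t1]
lemma t3 : t 3 = 1 := by rw [show (3:ℕ) = 2 * 1 + 1 from rfl, t_odd, t1]; rfl
lemma t4 : t 4 = -1 := by rw [show (4:ℕ) = 2 * 2 from rfl, t_even, t2]
lemma t5 : t 5 = 1 := by rw [show (5:ℕ) = 2 * 2 + 1 from rfl, t_odd, t2]; rfl
lemma t6 : t 6 = 1 := by rw [show (6:ℕ) = 2 * 3 from rfl, t_even, t3]
lemma t7 : t 7 = -1 := by rw [show (7:ℕ) = 2 * 3 + 1 from rfl, t_odd, t3]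
lemma t8 : t 8 = -1 := by rw [show (8:ℕ) = 2 * 4 from rfl, t_even, t4]
lemma t9 : t 9 = 1 := by rw [show (9:ℕ) = 2 * 4 + 1 from rfl, t_odd, t4]; rfl
lemma t10 : t 10 = 1 := by rw [show (10:ℕ) = 2 * 5 from rfl, t_even, t5]
lemma t11 : t 11 = -1 := by rw [show (11:ℕ) = 2 * 5 + 1 from rfl, t_odd, t5]
lemma t12 : t 12 = 1 := by rw [show (12:ℕ) = 2 * 6 from rfl, t_even, t6]
lemma t13 : t 13 = -1 := by rw [show (13:ℕ) = 2 * 6 + 1 from rfl, t_odd, t6]
lemma t14 : t 14 = -1 := by rw [show (14:ℕ) = 2 * 7 from rfl, t_even, t7]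
lemma t15 : t 15 = 1 := by rw [show (15:ℕ) = 2 * 7 + 1 from rfl, t_odd, t7]; rfl
lemma t16 : t 16 = -1 := by rw [show (16:ℕ) = 2 * 8 from rfl, t_even, t8]
lemma t17 : t 17 = 1 := by rw [show (17:ℕ) = 2 * 8 + 1 from rfl, t_odd, t8]; rfl
lemma t18 : t 18 = 1 := by rw [show (18:ℕ) = 2 * 9 from rfl, t_even, t9]
lemma t19 : t 19 = -1 := by rw [show (19:ℕ) = 2 * 9 + 1 from rfl, t_odd, t9]
lemma t20 : t 20 = 1 := by rw [show (20:ℕ) = 2 * 10 from rfl, t_even, t10]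
lemma t21 : t 21 = -1 := by rw [show (21:ℕ) = 2 * 10 + 1 from rfl, t_odd, t10]
lemma t22 : t 22 = -1 := by rw [show (22:ℕ) = 2 * 11 from rfl, t_even, t11]
lemma t23 : t 23 = 1 := by rw [show (23:ℕ) = 2 * 11 + 1 from rfl, t_odd, t11]; rfl
lemma t24 : t 24 = 1 := by rw [show (24:ℕ) = 2 * 12 from rfl, t_even, t12]
lemma t25 : t 25 = -1 := by rw [show (25:ℕ) = 2 * 12 + 1 from rfl, t_odd, t12]
lemma t26 : t 26 = -1 := by rw [show (26:ℕ) = 2 * 13 from rfl, t_even, t13]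
lemma t27 : t 27 = 1 := by rw [show (27:ℕ) = 2 * 13 + 1 from rfl, t_odd, t13]; rfl
lemma t28 : t 28 = -1 := by rw [show (28:ℕ) = 2 * 14 from rfl, t_even, t14]
lemma t29 : t 29 = 1 := by rw [show (29:ℕ) = 2 * 14 + 1 from rfl, t_odd, t14]; rfl
lemma t30 : t 30 = 1 := by rw [show (30:ℕ) = 2 * 15 from rfl, t_even, t15]
lemma t31 : t 31 = -1 := by rw [show (31:ℕ) = 2 * 15 + 1 from rfl, t_odd, t15]
lemma t32 : t 32 = -1 := by rw [show (32:ℕ) = 2 * 16 from rfl, t_even, t16]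
lemma xy0 : X 0 = 0 ∧ Y 0 = 1 := ⟨rfl, rfl⟩
lemma xy1 : X 1 = 1 ∧ Y 1 = 1 := by
  have hx := X_succ 0
  have hy := Y_succ 0
  rw [xy0.1, xy0.2] at hx hy
  rw [show (0:ℕ) + 1 = 1 from rfl, t1, t0] at hx
  exact ⟨by rw [hx]; norm_num, by rw [show (1:ℕ) = 0 + 1 from rfl, hy]; norm_num⟩
lemma xy2 : X 2 = 3 ∧ Y 2 = 2 := by
  have hx := X_succ 1
  have hy := Y_succ 1
  rw [xy1.1, xy1.2] at hx hy
  rw [show (1:ℕ) + 1 = 2 from rfl, t2, t1] at hx
  exact ⟨by rw [hx]; norm_num, by rw [show (2:ℕ) = 1 + 1 from rfl, hy]; norm_num⟩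
lemma xy3 : X 3 = 2 ∧ Y 3 = 5 := by
  have hx := X_succ 2
  have hy := Y_succ 2
  rw [xy2.1, xy2.2] at hx hy
  rw [show (2:ℕ) + 1 = 3 from rfl, t3, t2] at hx
  exact ⟨by rw [hx]; norm_num, by rw [show (3:ℕ) = 2 + 1 from rfl, hy]; norm_num⟩
lemma xy4 : X 4 = 5 ∧ Y 4 = 7 := by
  have hx := X_succ 3
  have hy := Y_succ 3
  rw [xy3.1, xy3.2] at hx hy
  rw [show (3:ℕ) + 1 = 4 from rfl, t4, t3] at hx
  exact ⟨by rw [hx]; norm_num, by rw [show (4:ℕ) = 3 + 1 from rfl, hy]; norm_num⟩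
lemma xy5 : X 5 = 7 ∧ Y 5 = 12 := by
  have hx := X_succ 4
  have hy := Y_succ 4
  rw [xy4.1, xy4.2] at hx hy
  rw [show (4:ℕ) + 1 = 5 from rfl, t5, t4] at hx
  exact ⟨by rw [hx]; norm_num, by rw [show (5:ℕ) = 4 + 1 from rfl, hy]; norm_num⟩
lemma xy6 : X 6 = 26 ∧ Y 6 = 19 := by
  have hx := X_succ 5
  have hy := Y_succ 5
  rw [xy5.1, xy5.2] at hx hy
  rw [show (5:ℕ) + 1 = 6 from rfl, t6, t5] at hx
  exact ⟨by rw [hx]; norm_num, by rw [show (6:ℕ) = 5 + 1 from rfl, hy]; norm_num⟩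
lemma xy7 : X 7 = 19 ∧ Y 7 = 45 := by
  have hx := X_succ 6
  have hy := Y_succ 6
  rw [xy6.1, xy6.2] at hx hy
  rw [show (6:ℕ) + 1 = 7 from rfl, t7, t6] at hx
  exact ⟨by rw [hx]; norm_num, by rw [show (7:ℕ) = 6 + 1 from rfl, hy]; norm_num⟩
lemma xy8 : X 8 = 83 ∧ Y 8 = 64 := by
  have hx := X_succ 7
  have hy := Y_succ 7
  rw [xy7.1, xy7.2] at hx hy
  rw [show (7:ℕ) + 1 = 8 from rfl, t8, t7] at hx
  exact ⟨by rw [hx]; norm_num, by rw [show (8:ℕ) = 7 + 1 from rfl, hy]; norm_num⟩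
lemma xy9 : X 9 = 64 ∧ Y 9 = 147 := by
  have hx := X_succ 8
  have hy := Y_succ 8
  rw [xy8.1, xy8.2] at hx hy
  rw [show (8:ℕ) + 1 = 9 from rfl, t9, t8] at hx
  exact ⟨by rw [hx]; norm_num, by rw [show (9:ℕ) = 8 + 1 from rfl, hy]; norm_num⟩
lemma xy10 : X 10 = 275 ∧ Y 10 = 211 := by
  have hx := X_succ 9
  have hy := Y_succ 9
  rw [xy9.1, xy9.2] at hx hy
  rw [show (9:ℕ) + 1 = 10 from rfl, t10, t9] at hx
  exact ⟨by rw [hx]; norm_num, by rw [show (10:ℕ) = 9 + 1 from rfl, hy]; norm_num⟩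
lemma xy11 : X 11 = 211 ∧ Y 11 = 486 := by
  have hx := X_succ 10
  have hy := Y_succ 10
  rw [xy10.1, xy10.2] at hx hy
  rw [show (10:ℕ) + 1 = 11 from rfl, t11, t10] at hx
  exact ⟨by rw [hx]; norm_num, by rw [show (11:ℕ) = 10 + 1 from rfl, hy]; norm_num⟩
lemma xy12 : X 12 = 486 ∧ Y 12 = 697 := by
  have hx := X_succ 11
  have hy := Y_succ 11
  rw [xy11.1, xy11.2] at hx hy
  rw [show (11:ℕ) + 1 = 12 from rfl, t12, t11] at hx
  exact ⟨by rw [hx]; norm_num, by rw [show (12:ℕ) = 11 + 1 from rfl, hy]; norm_num⟩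
lemma xy13 : X 13 = 697 ∧ Y 13 = 1183 := by
  have hx := X_succ 12
  have hy := Y_succ 12
  rw [xy12.1, xy12.2] at hx hy
  rw [show (12:ℕ) + 1 = 13 from rfl, t13, t12] at hx
  exact ⟨by rw [hx]; norm_num, by rw [show (13:ℕ) = 12 + 1 from rfl, hy]; norm_num⟩
lemma xy14 : X 14 = 2577 ∧ Y 14 = 1880 := by
  have hx := X_succ 13
  have hy := Y_succ 13
  rw [xy13.1, xy13.2] at hx hy
  rw [show (13:ℕ) + 1 = 14 from rfl, t14, t13] at hx
  exact ⟨by rw [hx]; norm_num, by rw [show (14:ℕ) = 13 + 1 from rfl, hy]; norm_num⟩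
lemma xy15 : X 15 = 1880 ∧ Y 15 = 4457 := by
  have hx := X_succ 14
  have hy := Y_succ 14
  rw [xy14.1, xy14.2] at hx hy
  rw [show (14:ℕ) + 1 = 15 from rfl, t15, t14] at hx
  exact ⟨by rw [hx]; norm_num, by rw [show (15:ℕ) = 14 + 1 from rfl, hy]; norm_num⟩
lemma xy16 : X 16 = 4457 ∧ Y 16 = 6337 := by
  have hx := X_succ 15
  have hy := Y_succ 15
  rw [xy15.1, xy15.2] at hx hy
  rw [show (15:ℕ) + 1 = 16 from rfl, t16, t15] at hx
  exact ⟨by rw [hx]; norm_num, by rw [show (16:ℕ) = 15 + 1 from rfl, hy]; norm_num⟩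
lemma xy17 : X 17 = 6337 ∧ Y 17 = 10794 := by
  have hx := X_succ 16
  have hy := Y_succ 16
  rw [xy16.1, xy16.2] at hx hy
  rw [show (16:ℕ) + 1 = 17 from rfl, t17, t16] at hx
  exact ⟨by rw [hx]; norm_num, by rw [show (17:ℕ) = 16 + 1 from rfl, hy]; norm_num⟩
lemma xy18 : X 18 = 23468 ∧ Y 18 = 17131 := by
  have hx := X_succ 17
  have hy := Y_succ 17
  rw [xy17.1, xy17.2] at hx hy
  rw [show (17:ℕ) + 1 = 18 from rfl, t18, t17] at hx
  exact ⟨by rw [hx]; norm_num, by rw [show (18:ℕ) = 17 + 1 from rfl, hy]; norm_num⟩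
lemma xy19 : X 19 = 17131 ∧ Y 19 = 40599 := by
  have hx := X_succ 18
  have hy := Y_succ 18
  rw [xy18.1, xy18.2] at hx hy
  rw [show (18:ℕ) + 1 = 19 from rfl, t19, t18] at hx
  exact ⟨by rw [hx]; norm_num, by rw [show (19:ℕ) = 18 + 1 from rfl, hy]; norm_num⟩
lemma xy20 : X 20 = 40599 ∧ Y 20 = 57730 := by
  have hx := X_succ 19
  have hy := Y_succ 19
  rw [xy19.1, xy19.2] at hx hy
  rw [show (19:ℕ) + 1 = 20 from rfl, t20, t19] at hx
  exact ⟨by rw [hx]; norm_num, by rw [show (20:ℕ) = 19 + 1 from rfl, hy]; norm_num⟩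
lemma xy21 : X 21 = 57730 ∧ Y 21 = 98329 := by
  have hx := X_succ 20
  have hy := Y_succ 20
  rw [xy20.1, xy20.2] at hx hy
  rw [show (20:ℕ) + 1 = 21 from rfl, t21, t20] at hx
  exact ⟨by rw [hx]; norm_num, by rw [show (21:ℕ) = 20 + 1 from rfl, hy]; norm_num⟩
lemma xy22 : X 22 = 213789 ∧ Y 22 = 156059 := by
  have hx := X_succ 21
  have hy := Y_succ 21
  rw [xy21.1, xy21.2] at hx hy
  rw [show (21:ℕ) + 1 = 22 from rfl, t22, t21] at hx
  exact ⟨by rw [hx]; norm_num, by rw [show (22:ℕ) = 21 + 1 from rfl, hy]; norm_num⟩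
lemma xy23 : X 23 = 156059 ∧ Y 23 = 369848 := by
  have hx := X_succ 22
  have hy := Y_succ 22
  rw [xy22.1, xy22.2] at hx hy
  rw [show (22:ℕ) + 1 = 23 from rfl, t23, t22] at hx
  exact ⟨by rw [hx]; norm_num, by rw [show (23:ℕ) = 22 + 1 from rfl, hy]; norm_num⟩
lemma xy24 : X 24 = 681966 ∧ Y 24 = 525907 := by
  have hx := X_succ 23
  have hy := Y_succ 23
  rw [xy23.1, xy23.2] at hx hy
  rw [show (23:ℕ) + 1 = 24 from rfl, t24, t23] at hx
  exact ⟨by rw [hx]; norm_num, by rw [show (24:ℕ) = 23 + 1 from rfl, hy]; norm_num⟩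
lemma xy25 : X 25 = 525907 ∧ Y 25 = 1207873 := by
  have hx := X_succ 24
  have hy := Y_succ 24
  rw [xy24.1, xy24.2] at hx hy
  rw [show (24:ℕ) + 1 = 25 from rfl, t25, t24] at hx
  exact ⟨by rw [hx]; norm_num, by rw [show (25:ℕ) = 24 + 1 from rfl, hy]; norm_num⟩
lemma xy26 : X 26 = 2259687 ∧ Y 26 = 1733780 := by
  have hx := X_succ 25
  have hy := Y_succ 25
  rw [xy25.1, xy25.2] at hx hy
  rw [show (25:ℕ) + 1 = 26 from rfl, t26, t25] at hx
  exact ⟨by rw [hx]; norm_num, by rw [show (26:ℕ) = 25 + 1 from rfl, hy]; norm_num⟩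
lemma xy27 : X 27 = 1733780 ∧ Y 27 = 3993467 := by
  have hx := X_succ 26
  have hy := Y_succ 26
  rw [xy26.1, xy26.2] at hx hy
  rw [show (26:ℕ) + 1 = 27 from rfl, t27, t26] at hx
  exact ⟨by rw [hx]; norm_num, by rw [show (27:ℕ) = 26 + 1 from rfl, hy]; norm_num⟩
lemma xy28 : X 28 = 3993467 ∧ Y 28 = 5727247 := by
  have hx := X_succ 27
  have hy := Y_succ 27
  rw [xy27.1, xy27.2] at hx hy
  rw [show (27:ℕ) + 1 = 28 from rfl, t28, t27] at hx
  exact ⟨by rw [hx]; norm_num, by rw [show (28:ℕ) = 27 + 1 from rfl, hy]; norm_num⟩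
lemma xy29 : X 29 = 5727247 ∧ Y 29 = 9720714 := by
  have hx := X_succ 28
  have hy := Y_succ 28
  rw [xy28.1, xy28.2] at hx hy
  rw [show (28:ℕ) + 1 = 29 from rfl, t29, t28] at hx
  exact ⟨by rw [hx]; norm_num, by rw [show (29:ℕ) = 28 + 1 from rfl, hy]; norm_num⟩
lemma xy30 : X 30 = 21175208 ∧ Y 30 = 15447961 := by
  have hx := X_succ 29
  have hy := Y_succ 29
  rw [xy29.1, xy29.2] at hx hy
  rw [show (29:ℕ) + 1 = 30 from rfl, t30, t29] at hx
  exact ⟨by rw [hx]; norm_num, by rw [show (30:ℕ) = 29 + 1 from rfl, hy]; norm_num⟩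
lemma xy31 : X 31 = 15447961 ∧ Y 31 = 36623169 := by
  have hx := X_succ 30
  have hy := Y_succ 30
  rw [xy30.1, xy30.2] at hx hy
  rw [show (30:ℕ) + 1 = 31 from rfl, t31, t30] at hx
  exact ⟨by rw [hx]; norm_num, by rw [show (31:ℕ) = 30 + 1 from rfl, hy]; norm_num⟩
lemma xy32 : X 32 = 67519091 ∧ Y 32 = 52071130 := by
  have hx := X_succ 31
  have hy := Y_succ 31
  rw [xy31.1, xy31.2] at hx hy
  rw [show (31:ℕ) + 1 = 32 from rfl, t32, t31] at hx
  exact ⟨by rw [hx]; norm_num, by rw [show (32:ℕ) = 31 + 1 from rfl, hy]; norm_num⟩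

/-! ### The ratios `ρ` in terms of `r` -/

lemma abs_t (n : ℕ) : |t n| = 1 := by
  rcases t_cases n with h | h <;> rw [h] <;> rfl

lemma abs_h (n : ℕ) : |h (4 * n)| = X n ∧ |h (4 * n + 1)| = Y n ∧ |h (4 * n + 2)| = X n + Y n ∧
    |h (4 * n + 3)| = X n := by
  obtain ⟨h0, h1, h2, h3⟩ := h_values n
  obtain ⟨p1, p2, -, -⟩ := XY_pos n
  rw [h0, h1, h2, h3, Y_succ]
  refine ⟨?_, ?_, ?_, ?_⟩
  · rw [abs_neg, abs_of_nonneg p1]
  · rw [abs_mul, abs_t, one_mul, abs_of_nonneg (by omega)]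
  · rw [abs_neg, abs_of_nonneg (by omega)]
  · rw [abs_neg, abs_mul, abs_t, one_mul, abs_of_nonneg p1]

lemma abs_hq (n : ℕ) : |(h (4 * n) : ℚ)| = X n ∧ |(h (4 * n + 1) : ℚ)| = Y n ∧
    |(h (4 * n + 2) : ℚ)| = X n + Y n ∧ |(h (4 * n + 3) : ℚ)| = X n := by
  obtain ⟨h0, h1, h2, h3⟩ := abs_h n
  refine ⟨?_, ?_, ?_, ?_⟩
  · rw [← h0]; push_cast; rfl
  · rw [← h1]; push_cast; rfl
  · rw [← Int.cast_abs, h2]; push_cast; rfl
  · rw [← h3]; push_cast; rfl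

lemma rho1 {m : ℕ} : ρ (4 * m + 1) = (r m)⁻¹ := by
  unfold ρ r
  rw [Nat.add_sub_cancel, (abs_hq m).1, (abs_hq m).2.1, inv_div]

lemma rho2 {m : ℕ} : ρ (4 * m + 2) = 1 + r m := by
  have hY := Y_pos m
  unfold ρ r
  rw [show 4 * m + 2 - 1 = 4 * m + 1 by omega, (abs_hq m).2.1, (abs_hq m).2.2.1]
  field_simp
  ring

lemma rho3 {m : ℕ} : ρ (4 * m + 3) = r m / (1 + r m) := by
  have hY := Y_pos m
  have hX := X_nonneg m
  unfold ρ r
  rw [show 4 * m + 3 - 1 = 4 * m + 2 by omega, (abs_hq m).2.2.1, (abs_hq m).2.2.2]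
  field_simp
  ring

lemma rho4 {m : ℕ} (hm : 1 ≤ m) : ρ (4 * m + 4) = 1 + (e m : ℚ) + (r m)⁻¹ := by
  have hY := Y_pos m
  have hX := X_pos hm
  unfold ρ r
  rw [show 4 * m + 4 - 1 = 4 * m + 3 by omega, show 4 * m + 4 = 4 * (m + 1) by ring,
    (abs_hq m).2.2.2, (abs_hq (m + 1)).1, X_succ]
  unfold e
  push_cast
  field_simp

lemma r_two : r 2 = 3 / 2 := by
  unfold r; rw [xy2.1, xy2.2]; norm_num

lemma r_three : r 3 = 2 / 5 := by
  unfold r; rw [xy3.1, xy3.2]; norm_num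

lemma r_eight : r 8 = 83 / 64 := by
  unfold r; rw [xy8.1, xy8.2]; norm_num

lemma r_thirtytwo : r 32 = 67519091 / 52071130 := by
  unfold r; rw [xy32.1, xy32.2]; norm_num

lemma r_le (m : ℕ) : r m ≤ 3 / 2 := by
  have h := max_even s_zero m
  rw [pow_zero, one_mul, one_mul, r_two] at h
  exact h

lemma le_r {m : ℕ} (hm : 1 ≤ m) : 2 / 5 ≤ r m := by
  have h := min_even s_zero m hm
  rw [pow_zero, one_mul, one_mul, r_three] at h
  exact h

/-! ### The minimum is attained -/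

lemma inv_mono {x y : ℚ} (hx : 0 < x) (h : x ≤ y) : y⁻¹ ≤ x⁻¹ :=
  inv_anti₀ hx h

lemma frac_mono {x y : ℚ} (hx : 0 ≤ x) (h : x ≤ y) : x / (1 + x) ≤ y / (1 + y) := by
  rw [div_le_div_iff₀ (by linarith) (by linarith)]
  nlinarith

theorem attained (k i : ℕ) (hk : 1 ≤ k) (hi : i < 2 ^ k) :
    ∃ n0, 4 ≤ 2 ^ k * n0 + i ∧
      ∀ n, 4 ≤ 2 ^ k * n + i → ρ (2 ^ k * n0 + i + 1) ≤ ρ (2 ^ k * n + i + 1) := by
  rcases Nat.lt_or_ge k 2 with hk2 | hk2
  · obtain rfl : k = 1 := by omega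
    have hi' : i = 0 ∨ i = 1 := by omega
    rcases hi' with rfl | rfl
    · refine ⟨7, by norm_num, fun n hn => ?_⟩
      rw [show 2 ^ 1 * 7 + 0 + 1 = 4 * 3 + 3 by norm_num, rho3, r_three]
      obtain ⟨m, hm | hm⟩ := Nat.even_or_odd' n
      · have hm1 : 1 ≤ m := by omega
        rw [show 2 ^ 1 * n + 0 + 1 = 4 * m + 1 by rw [hm]; ring, rho1]
        have h1 := inv_mono (r_pos hm1) (r_le m)
        norm_num at h1 ⊢
        linarith
      · have hm1 : 1 ≤ m := by omega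
        rw [show 2 ^ 1 * n + 0 + 1 = 4 * m + 3 by rw [hm]; ring, rho3]
        exact frac_mono (by norm_num) (le_r hm1)
    · refine ⟨5, by norm_num, fun n hn => ?_⟩
      rw [show 2 ^ 1 * 5 + 1 + 1 = 4 * 2 + 4 by norm_num, rho4 (by norm_num), r_two, e_2]
      obtain ⟨m, hm | hm⟩ := Nat.even_or_odd' n
      · have hm1 : 1 ≤ m := by omega
        rw [show 2 ^ 1 * n + 1 + 1 = 4 * m + 2 by rw [hm]; ring, rho2]
        have h1 := r_nonneg m
        norm_num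
        linarith
      · have hm1 : 1 ≤ m := by omega
        rw [show 2 ^ 1 * n + 1 + 1 = 4 * m + 4 by rw [hm]; ring, rho4 hm1]
        have h1 := inv_mono (r_pos hm1) (r_le m)
        rcases e_cases m with h | h <;> rw [h] <;> norm_num at h1 ⊢ <;> linarith
  · obtain ⟨j, rfl⟩ : ∃ j, k = j + 2 := ⟨k - 2, by omega⟩
    obtain ⟨a, b, hb, rfl⟩ : ∃ a b, b < 4 ∧ i = 4 * a + b :=
      ⟨i / 4, i % 4, Nat.mod_lt _ (by norm_num), (Nat.div_add_mod i 4).symm⟩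
    have hpow : 2 ^ (j + 2) = 4 * 2 ^ j := by rw [pow_add]; ring
    have ha : a < 2 ^ j := by omega
    have hidx : ∀ n, 2 ^ (j + 2) * n + (4 * a + b) = 4 * (2 ^ j * n + a) + b := by
      intro n; rw [hpow]; ring
    have hb' : b = 0 ∨ b = 1 ∨ b = 2 ∨ b = 3 := by omega
    rcases hb' with rfl | rfl | rfl | rfl
    · obtain ⟨n1, h1, h2⟩ := class_max ha
      refine ⟨n1, by rw [hidx]; omega, fun n hn => ?_⟩
      rw [hidx] at hn ⊢
      rw [hidx, Nat.add_zero, Nat.add_zero, rho1, rho1]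
      exact inv_mono (r_pos (by omega)) (h2 n)
    · obtain ⟨n1, h1, h2⟩ := class_min ha
      refine ⟨n1, by rw [hidx]; omega, fun n hn => ?_⟩
      rw [hidx] at hn ⊢
      rw [hidx]
      rw [show 4 * (2 ^ j * n1 + a) + 1 + 1 = 4 * (2 ^ j * n1 + a) + 2 from rfl,
        show 4 * (2 ^ j * n + a) + 1 + 1 = 4 * (2 ^ j * n + a) + 2 from rfl, rho2, rho2]
      have := h2 n (by omega)
      linarith
    · obtain ⟨n1, h1, h2⟩ := class_min ha
      refine ⟨n1, by rw [hidx]; omega, fun n hn => ?_⟩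
      rw [hidx] at hn ⊢
      rw [hidx]
      rw [show 4 * (2 ^ j * n1 + a) + 2 + 1 = 4 * (2 ^ j * n1 + a) + 3 from rfl,
        show 4 * (2 ^ j * n + a) + 2 + 1 = 4 * (2 ^ j * n + a) + 3 from rfl, rho3, rho3]
      exact frac_mono (r_nonneg _) (h2 n (by omega))
    · rcases Nat.lt_or_ge (a + 1) (2 ^ j) with ha1 | ha1
      · obtain ⟨n1, h1, h2⟩ := class_max ha
        refine ⟨n1, by rw [hidx]; omega, fun n hn => ?_⟩
        rw [hidx] at hn ⊢
        rw [hidx]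
        rw [show 4 * (2 ^ j * n1 + a) + 3 + 1 = 4 * (2 ^ j * n1 + a) + 4 from rfl,
          show 4 * (2 ^ j * n + a) + 3 + 1 = 4 * (2 ^ j * n + a) + 4 from rfl,
          rho4 h1, rho4 (by omega), e_inner n1 ha1, e_inner n ha1]
        have := inv_mono (r_pos (by omega)) (h2 n)
        linarith
      · obtain rfl : a = 2 ^ j - 1 := by omega
        obtain ⟨n1, h1, h2, h3⟩ := last_max j
        refine ⟨n1, by rw [hidx]; omega, fun n hn => ?_⟩
        rw [hidx] at hn ⊢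
        rw [hidx]
        have hn1 : 1 ≤ 2 ^ j * n + (2 ^ j - 1) := by omega
        rw [show 4 * (2 ^ j * n1 + (2 ^ j - 1)) + 3 + 1 = 4 * (2 ^ j * n1 + (2 ^ j - 1)) + 4
            from rfl,
          show 4 * (2 ^ j * n + (2 ^ j - 1)) + 3 + 1 = 4 * (2 ^ j * n + (2 ^ j - 1)) + 4 from rfl,
          rho4 h1, rho4 hn1, h2]
        rcases e_cases (2 ^ j * n + (2 ^ j - 1)) with h | h
        · rw [h]
          have g1 := inv_mono (by norm_num) (le_r h1)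
          have g2 := inv_mono (r_pos hn1) (r_le (2 ^ j * n + (2 ^ j - 1)))
          norm_num at g1 g2 ⊢
          linarith
        · rw [h]
          have := inv_mono (r_pos hn1) (h3 n h)
          norm_num
          exact this

/-! ### The best constants -/

lemma best_isLeast {k i n0 : ℕ} (h0 : 4 ≤ 2 ^ k * n0 + i)
    (h1 : ∀ n, 4 ≤ 2 ^ k * n + i → ρ (2 ^ k * n0 + i + 1) ≤ ρ (2 ^ k * n + i + 1)) :
    best k i = (ρ (2 ^ k * n0 + i + 1) : ℝ) := by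
  refine IsLeast.csInf_eq ⟨⟨n0, h0, rfl⟩, ?_⟩
  rintro x ⟨n, hn, rfl⟩
  exact_mod_cast h1 n hn

/-- `best k 0` for `k = j + 2`, in terms of the largest value of `r` on the multiples of
`2 ^ j`. -/
lemma best_zero {j n1 : ℕ} (hn1 : 1 ≤ n1) (h1 : ∀ n, r (2 ^ j * n) ≤ r (2 ^ j * n1)) :
    best (j + 2) 0 = (ρ (2 ^ (j + 2) * n1 + 1) : ℝ) := by
  have hpow : 2 ^ (j + 2) = 4 * 2 ^ j := by rw [pow_add]; ring
  have hidx : ∀ n, 2 ^ (j + 2) * n = 4 * (2 ^ j * n) := by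
    intro n; rw [hpow]; ring
  refine best_isLeast (k := j + 2) (i := 0) (n0 := n1) ?_ ?_
  · rw [hidx]
    have := two_pow_mul_pos (j := j) hn1
    omega
  · intro n hn
    rw [Nat.add_zero, hidx] at hn
    rw [Nat.add_zero, Nat.add_zero, hidx, hidx, rho1, rho1]
    exact inv_mono (r_pos (by omega)) (h1 n)

lemma best_two_mul (k : ℕ) (hk : 1 ≤ k) :
    best (2 * k) 0 = (ρ (2 ^ (2 * k + 1) + 1) : ℝ) := by
  obtain ⟨l, rfl⟩ : ∃ l, k = l + 1 := ⟨k - 1, by omega⟩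
  have h := best_zero (j := 2 * l) (n1 := 2) (by norm_num) (max_even (s_parity l).1)
  rw [show 2 * (l + 1) = 2 * l + 2 by ring, h]
  rw [← pow_succ]

lemma best_two_mul_succ (k : ℕ) (hk : 1 ≤ k) :
    best (2 * k + 1) 0 = (ρ (2 ^ (2 * k + 1) + 1) : ℝ) := by
  obtain ⟨l, rfl⟩ : ∃ l, k = l + 1 := ⟨k - 1, by omega⟩
  have h := best_zero (j := 2 * l + 1) (n1 := 1) (by norm_num) (max_odd (s_parity l).2)
  rw [show 2 * (l + 1) + 1 = 2 * l + 1 + 2 by ring, h, Nat.mul_one]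

lemma best_one : best 1 0 = 2 / 7 := by
  have h : best 1 0 = (ρ (2 ^ 1 * 7 + 0 + 1) : ℝ) := by
    refine best_isLeast (by norm_num) fun n hn => ?_
    rw [show 2 ^ 1 * 7 + 0 + 1 = 4 * 3 + 3 by norm_num, rho3, r_three]
    obtain ⟨m, hm | hm⟩ := Nat.even_or_odd' n
    · have hm1 : 1 ≤ m := by omega
      rw [show 2 ^ 1 * n + 0 + 1 = 4 * m + 1 by rw [hm]; ring, rho1]
      have h1 := inv_mono (r_pos hm1) (r_le m)
      norm_num at h1 ⊢
      linarith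
    · have hm1 : 1 ≤ m := by omega
      rw [show 2 ^ 1 * n + 0 + 1 = 4 * m + 3 by rw [hm]; ring, rho3]
      exact frac_mono (by norm_num) (le_r hm1)
  rw [h, show 2 ^ 1 * 7 + 0 + 1 = 4 * 3 + 3 by norm_num, rho3, r_three]
  norm_num

lemma rho_nine : ρ 9 = 2 / 3 := by
  rw [show (9 : ℕ) = 4 * 2 + 1 from rfl, rho1, r_two]; norm_num

lemma rho_33 : ρ 33 = 64 / 83 := by
  rw [show (33 : ℕ) = 4 * 8 + 1 from rfl, rho1, r_eight]; norm_num

lemma rho_129 : ρ 129 = 52071130 / 67519091 := by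
  rw [show (129 : ℕ) = 4 * 32 + 1 from rfl, rho1, r_thirtytwo]; norm_num

lemma h_ne_zero {n : ℕ} (hn : 4 ≤ n) : (0 : ℝ) < |(h n : ℝ)| := by
  have key : 0 < |h n| := by
    obtain ⟨m, b, hb, rfl⟩ : ∃ m b, b < 4 ∧ n = 4 * m + b :=
      ⟨n / 4, n % 4, Nat.mod_lt _ (by norm_num), (Nat.div_add_mod n 4).symm⟩
    obtain ⟨h0, h1, h2, h3⟩ := abs_h m
    obtain ⟨p1, p2, p3, p4⟩ := XY_pos m
    have p5 := p4 (by omega)
    have hb' : b = 0 ∨ b = 1 ∨ b = 2 ∨ b = 3 := by omega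
    rcases hb' with rfl | rfl | rfl | rfl
    · rw [Nat.add_zero, h0]; omega
    · rw [h1]; omega
    · rw [h2]; omega
    · rw [h3]; omega
  exact_mod_cast key

lemma rho_real (n : ℕ) : (ρ (n + 1) : ℝ) = |(h (n + 1) : ℝ)| / |(h n : ℝ)| := by
  unfold ρ
  rw [Nat.add_sub_cancel]
  push_cast
  rfl

theorem best_Q2 : Q2 best := by
  refine ⟨fun k i hk hi => ?_, fun k hk => ?_, best_one, ?_, ?_, ?_, ?_, ?_, ?_⟩
  · obtain ⟨n0, h0, h1⟩ := attained k i hk hi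
    have h2 := best_isLeast h0 h1
    refine ⟨⟨_, h2⟩, fun n hn => ?_⟩
    have h3 := h1 n hn
    have h4 : best k i ≤ (ρ (2 ^ k * n + i + 1) : ℝ) := by
      rw [h2]; exact_mod_cast h3
    rw [rho_real] at h4
    exact (le_div_iff₀ (h_ne_zero hn)).1 h4
  · rw [best_two_mul k hk, best_two_mul_succ k hk]
  · rw [best_two_mul 1 (by norm_num), show 2 ^ (2 * 1 + 1) + 1 = 9 by norm_num, rho_nine]
    norm_num
  · rw [best_two_mul_succ 1 (by norm_num), show 2 ^ (2 * 1 + 1) + 1 = 9 by norm_num, rho_nine]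
    norm_num
  · rw [best_two_mul 2 (by norm_num), show 2 ^ (2 * 2 + 1) + 1 = 33 by norm_num, rho_33]
    norm_num
  · rw [best_two_mul_succ 2 (by norm_num), show 2 ^ (2 * 2 + 1) + 1 = 33 by norm_num, rho_33]
    norm_num
  · rw [best_two_mul 3 (by norm_num), show 2 ^ (2 * 3 + 1) + 1 = 129 by norm_num, rho_129]
    norm_num
  · rw [best_two_mul_succ 3 (by norm_num), show 2 ^ (2 * 3 + 1) + 1 = 129 by norm_num, rho_129]
    norm_num

/-! ### The lower limit -/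

lemma r_lower {m : ℕ} (hm : 4 ≤ m) : 5 / 12 ≤ r m := by
  obtain ⟨m1, rfl⟩ : ∃ m1, m = m1 + 1 := ⟨m - 1, by omega⟩
  rcases e_cases m1 with h | h
  · have := one_le_r h
    linarith
  · -- `r (m1 + 1) = 1 / (r m1 + 1)`, and `r m1 ≤ 7 / 5`
    have h1 : r m1 ≤ 7 / 5 := by
      obtain ⟨m2, rfl⟩ : ∃ m2, m1 = m2 + 1 := ⟨m1 - 1, by omega⟩
      rcases e_cases m2 with h2 | h2
      · obtain ⟨u, rfl⟩ := e_pos_odd h2
        have h3 : r (2 * u + 1) ≤ 2 / 3 := by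
          have hu : 1 ≤ u := by omega
          obtain ⟨v, rfl⟩ : ∃ v, u = v + 1 := ⟨u - 1, by omega⟩
          have h4 : 1 / 2 ≤ r (2 * (v + 1)) := by
            rw [show 2 * (v + 1) = 2 * v + 1 + 1 by ring]
            have h5 : r (2 * v + 1) ≤ 1 := r_le_one (e_even v)
            have h6 := r_nonneg (2 * v + 1)
            rw [r_succ]
            rcases e_cases (2 * v + 1) with h7 | h7 <;> rw [h7] <;> push_cast <;>
              rw [le_div_iff₀ (by linarith)] <;> linarith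
          rw [r_succ, e_even]
          push_cast
          rw [div_le_iff₀ (by linarith)]
          linarith
        have h4 := r_nonneg (2 * u + 1)
        rw [r_succ, h2]
        push_cast
        rw [div_le_iff₀ (by linarith)]
        linarith
      · have := r_le_one h2
        linarith
    have h2 := r_nonneg m1
    rw [r_succ, h]
    push_cast
    rw [le_div_iff₀ (by linarith)]
    linarith

lemma low_one : (5 / 17 : ℝ) ≤ low 1 0 := by
  have hodd : ∀ n : ℕ, 8 ≤ n → (5 / 17 : ℚ) ≤ ρ (2 ^ 1 * n + 0 + 1) ∧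
      ρ (2 ^ 1 * n + 0 + 1) ≤ 5 / 2 := by
    intro n hn
    obtain ⟨m, hm | hm⟩ := Nat.even_or_odd' n
    · have hm1 : 1 ≤ m := by omega
      rw [show 2 ^ 1 * n + 0 + 1 = 4 * m + 1 by rw [hm]; ring, rho1]
      have h1 := inv_mono (r_pos hm1) (r_le m)
      have h2 := inv_mono (by norm_num) (le_r hm1)
      norm_num at h1 h2 ⊢
      constructor <;> linarith
    · have hm1 : 4 ≤ m := by omega
      rw [show 2 ^ 1 * n + 0 + 1 = 4 * m + 3 by rw [hm]; ring, rho3]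
      have h1 := frac_mono (by norm_num) (r_lower hm1)
      have h2 := r_nonneg m
      norm_num at h1
      refine ⟨h1, ?_⟩
      rw [div_le_iff₀ (by linarith)]
      linarith
  unfold low
  have hb : Filter.IsBoundedUnder (· ≤ ·) Filter.atTop
      (fun n : ℕ => (ρ (2 ^ 1 * n + 0 + 1) : ℝ)) := by
    refine ⟨5 / 2, ?_⟩
    rw [Filter.eventually_map]
    refine Filter.eventually_atTop.2 ⟨8, fun n hn => ?_⟩
    calc (ρ (2 ^ 1 * n + 0 + 1) : ℝ) ≤ ((5 / 2 : ℚ) : ℝ) := Rat.cast_le.2 (hodd n hn).2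
      _ = 5 / 2 := by norm_num
  refine Filter.le_liminf_of_le hb.isCoboundedUnder_ge ?_
  refine Filter.eventually_atTop.2 ⟨8, fun n hn => ?_⟩
  calc (5 / 17 : ℝ) = ((5 / 17 : ℚ) : ℝ) := by norm_num
    _ ≤ (ρ (2 ^ 1 * n + 0 + 1) : ℝ) := Rat.cast_le.2 (hodd n hn).1

theorem not_low_Q2 : ¬ Q2 low := by
  rintro ⟨-, -, h, -⟩
  have := low_one
  rw [h] at this
  norm_num at this

/-- The second question for the twisted Fibonacci sequence.

* The refinement holds for the best constants `best k i`, and each of them is a minimum: for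
  `k ≥ 1` and `i < 2 ^ k` the number `best k i` is a value `ρ (2 ^ k n + i + 1)`.
* `best (2 k) 0 = best (2 k + 1) 0 = ρ (2 ^ (2 k + 1) + 1)` for every `k ≥ 1`.
* The refinement fails for the lower limits `low k i`: `low 1 0 ≥ 5 / 17 > 2 / 7`. -/
theorem result : Q2 best ∧
    (∀ k i : ℕ, 1 ≤ k → i < 2 ^ k → ∃ n : ℕ, 4 ≤ 2 ^ k * n + i ∧
      best k i = |(h (2 ^ k * n + i + 1) : ℝ)| / |(h (2 ^ k * n + i) : ℝ)|) ∧
    (∀ k : ℕ, 1 ≤ k →
      best (2 * k) 0 = |(h (2 ^ (2 * k + 1) + 1) : ℝ)| / |(h (2 ^ (2 * k + 1)) : ℝ)| ∧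
      best (2 * k + 1) 0 = |(h (2 ^ (2 * k + 1) + 1) : ℝ)| / |(h (2 ^ (2 * k + 1)) : ℝ)|) ∧
    5 / 17 ≤ low 1 0 ∧ ¬ Q2 low := by
  refine ⟨best_Q2, fun k i hk hi => ?_, fun k hk => ⟨?_, ?_⟩, low_one, not_low_Q2⟩
  · obtain ⟨n0, h0, h1⟩ := attained k i hk hi
    exact ⟨n0, h0, by rw [best_isLeast h0 h1, rho_real]⟩
  · rw [best_two_mul k hk, rho_real]
  · rw [best_two_mul_succ k hk, rho_real]

end Pool.Agent.Results.MP_e68cb8_nt.BestConstants
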